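import Pool.Agent.Helper13.TR.StA

/-!
# Project TR, module EXI: excision, injectivity
-/

set_option autoImplicit false

namespace Pool.Agent.Helper99.TR

open Set Topology Pool.Agent.Helper13.TR

/-- Module EXI. -/
theorem hEXI (hSM : StSM) (hSDA : StSDA) (hPSH : StPSH) (hMON : StMON) : StEXI := by
  intro X _ U B hU hB hBU k c hc
  obtain ⟨mon, inf, univ', bdc, -, -⟩ := hMON X
  obtain ⟨bdbd, -, -, -, -⟩ := hSDA X
  set f : C(↥U, X) := ⟨Subtype.val, continuous_subtype_val⟩ with hf
  obtain ⟨pbd, -, pin, -, -, -⟩ := hPSH U X X f (ContinuousMap.id X)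
  obtain ⟨-, -, -, -, pemb, pinv⟩ := hPSH U X X f (ContinuousMap.id X)
  have hemb : IsEmbedding f := IsEmbedding.subtypeVal
  have hinj : Function.Injective f := Subtype.val_injective
  have hcov : U ∪ Bᶜ = (univ : Set X) := by
    ext x
    by_cases hx : x ∈ B
    · simp [hBU hx]
    · simp [hx]
  -- the image of a chain of `U` is in `cin U`
  have hcU : ∀ (n : ℕ) (d : Ch ↥U n), push f n d ∈ cin U n := by
    intro n d
    refine pin U n d ?_
    have : f ⁻¹' U = (univ : Set ↥U) := by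
      ext x
      simp [hf]
    rw [this, (hMON U).2.2.1 n]
    exact Submodule.mem_top
  obtain ⟨ρ, hρ, w, hw, hsum⟩ := Submodule.mem_sup.1 hc
  obtain ⟨b, rfl⟩ := LinearMap.mem_range.1 hw
  have hbdb : bd k b = push f k c - ρ := by
    rw [← hsum]
    abel
  have h1 : b ∈ cin (U ∪ Bᶜ) (k + 1) := by
    rw [hcov, univ']
    exact Submodule.mem_top
  have h2 : b ∈ BdIn (fun k => cin U k ⊔ cin Bᶜ k) (k + 1) := by
    change bd k b ∈ cin U k ⊔ cin Bᶜ k
    rw [hbdb]
    exact Submodule.sub_mem _ (Submodule.mem_sup_left (hcU k c)) (Submodule.mem_sup_right hρ)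
  obtain ⟨b₁, hb₁, b₂, hb₂, e, -, hb⟩ := hSM X U Bᶜ hU hB.isOpen_compl (k + 1) b h1 h2
  have h3 : f '' (univ : Set ↥U) = U := by
    rw [image_univ]
    exact Subtype.range_val
  obtain ⟨b', -, hb'⟩ := pemb hemb univ (k + 1) b₁ (by rw [h3]; exact hb₁)
  have h4 : push f k (c - bd k b') ∈ cin Bᶜ k := by
    rw [map_sub, ← pbd, hb']
    have h5 : push f k c - bd k b₁ = ρ + bd k b₂ := by
      have h6 : bd k b = bd k b₁ + bd k b₂ := by
        rw [hb, map_add, map_add, bdbd, add_zero]
      have h7 : push f k c = ρ + bd k b := by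
        rw [hbdb]
        abel
      rw [h7, h6]
      abel
    rw [h5]
    exact Submodule.add_mem _ hρ (bdc Bᶜ k b₂ hb₂)
  have h8 := pinv hinj Bᶜ k _ h4
  have h9 : c = (c - bd k b') + bd k b' := by abel
  rw [h9]
  exact Submodule.add_mem _ (Submodule.mem_sup_left h8)
    (Submodule.mem_sup_right (LinearMap.mem_range_self _ _))

end Pool.Agent.Helper99.TR
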